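import Pool.Agent.Helper71.PV.Poly

/-!
# 1-planar-critical graphs: a bound polynomial in the spread of the threads and the degrees

The statement is the frozen statement of Q1 (same definition `P m H` of `H is m-planar`), where the constant
`k` is `c * ((A + 1) * (C + 1)) ^ 7` with one absolute constant `c`, for the graphs such that every thread (a path
between two different vertices of degree at least three whose inner vertices have degree two) has at least `r` and at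
most `(r + 1) ^ A` edges, and all degrees are at most `C * r`.
-/

namespace Pool.Agent.Results.MP_0dbcb7_co.PolyThreads

open Pool.Agent.Helper83.OP

theorem result :
    ∃ c : ℕ, ∀ (A C r : ℕ) (V : Type) [Fintype V] (G : SimpleGraph V)
      (P : ℕ → SimpleGraph V → Prop),
      P = (fun (m : ℕ) (H : SimpleGraph V) =>
        ∃ (pos : V → ℝ × ℝ) (γ : Sym2 V → ℝ → ℝ × ℝ),
          Function.Injective pos ∧
          (∀ u v : V, H.Adj u v →
            ((γ s(u, v) 0 = pos u ∧ γ s(u, v) 1 = pos v) ∨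
             (γ s(u, v) 0 = pos v ∧ γ s(u, v) 1 = pos u))) ∧
          (∀ e ∈ H.edgeSet, ContinuousOn (γ e) (Set.Icc (0 : ℝ) 1)) ∧
          (∀ e ∈ H.edgeSet, Set.InjOn (γ e) (Set.Icc (0 : ℝ) 1)) ∧
          (∀ e ∈ H.edgeSet, ∀ t : ℝ, t ∈ Set.Ioo (0 : ℝ) 1 →
            ∀ w : V, γ e t ≠ pos w) ∧
          (∀ e ∈ H.edgeSet,
            {q : Sym2 V × (ℝ × ℝ) | q.1 ∈ H.edgeSet ∧ q.1 ≠ e ∧
              q.2 ∈ γ e '' Set.Ioo (0 : ℝ) 1 ∧
              q.2 ∈ γ q.1 '' Set.Ioo (0 : ℝ) 1}.encard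
              ≤ (m : ℕ∞))) →
      ¬ P 1 G →
      (∀ e ∈ G.edgeSet, P 1 (G.deleteEdges {e})) →
      (∀ (u v : V) (p : G.Walk u v), p.IsPath → u ≠ v → 3 ≤ (G.neighborSet u).ncard →
        3 ≤ (G.neighborSet v).ncard →
        (∀ x ∈ p.support, x ≠ u → x ≠ v → (G.neighborSet x).ncard = 2) →
        r ≤ p.length ∧ p.length ≤ (r + 1) ^ A) →
      (∀ v : V, (G.neighborSet v).ncard ≤ C * r) →
      P (c * ((A + 1) * (C + 1)) ^ 7) G := by
  obtain ⟨c, hc⟩ := Pool.Agent.Helper71.PV.main_poly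
  refine ⟨c, fun A C r V _ G P hP h1 hcrit hthr hdeg => ?_⟩
  have key : ∀ (m : ℕ) (H : SimpleGraph V), P m H ↔ KPl m H := by
    intro m H
    rw [hP]
    constructor
    · rintro ⟨pos, γ, a1, a2, a3, a4, a5, a6⟩
      exact ⟨pos, γ, ⟨a1, a2, a3, a4, a5⟩, a6⟩
    · rintro ⟨pos, γ, ⟨a1, a2, a3, a4, a5⟩, a6⟩
      exact ⟨pos, γ, a1, a2, a3, a4, a5, a6⟩
  rw [key] at h1 ⊢
  exact hc A C V G r h1 (fun e he => (key _ _).1 (hcrit e he)) hthr hdeg

end Pool.Agent.Results.MP_0dbcb7_co.PolyThreads
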