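import Pool.Agent.Helper23.PL.Main

/-!
# Critical graphs are polylogarithmically planar

`P m H` is the definition of `H is m-planar` of the frozen statement of Q1. Every `m`-planar-critical graph `G` on `n`
vertices is `m c (log (m n) + 1)^c`-planar, with one absolute constant `c`. There is no other condition on `G`.
-/

namespace Pool.Agent.Results.MP_0dbcb7_co.Polylog

open Pool.Agent.Helper83.OP

theorem result :
    ∃ c : ℕ, ∀ (m : ℕ) (V : Type) [Fintype V] (G : SimpleGraph V)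
      (P : ℕ → SimpleGraph V → Prop),
      P = (fun (m : ℕ) (H : SimpleGraph V) =>
        ∃ (pos : V → ℝ × ℝ) (γ : Sym2 V → ℝ → ℝ × ℝ),
          Function.Injective pos ∧
          (∀ u v : V, H.Adj u v →
            ((γ s(u, v) 0 = pos u ∧ γ s(u, v) 1 = pos v) ∨
             (γ s(u, v) 0 = pos v ∧ γ s(u, v) 1 = pos u))) ∧
          (∀ e ∈ H.edgeSet, ContinuousOn (γ e) (Set.Icc (0 : ℝ) 1)) ∧
          (∀ e ∈ H.edgeSet, Set.InjOn (γ e) (Set.Icc (0 : ℝ) 1)) ∧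
          (∀ e ∈ H.edgeSet, ∀ t : ℝ, t ∈ Set.Ioo (0 : ℝ) 1 →
            ∀ w : V, γ e t ≠ pos w) ∧
          (∀ e ∈ H.edgeSet,
            {q : Sym2 V × (ℝ × ℝ) | q.1 ∈ H.edgeSet ∧ q.1 ≠ e ∧
              q.2 ∈ γ e '' Set.Ioo (0 : ℝ) 1 ∧
              q.2 ∈ γ q.1 '' Set.Ioo (0 : ℝ) 1}.encard
              ≤ (m : ℕ∞))) →
      1 ≤ m →
      ¬ P m G →
      (∀ e ∈ G.edgeSet, P m (G.deleteEdges {e})) →
      P (m * (c * (Nat.log 2 (m * Fintype.card V) + 1) ^ c)) G := by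
  obtain ⟨c, hc⟩ := Pool.Agent.Helper23.PL.Fin.main_PL
  refine ⟨c, fun m V _ G P hP hm h1 hcrit => ?_⟩
  have key : ∀ (m : ℕ) (H : SimpleGraph V), P m H ↔ KPl m H := by
    intro m H
    rw [hP]
    constructor
    · rintro ⟨pos, γ, a1, a2, a3, a4, a5, a6⟩
      exact ⟨pos, γ, ⟨a1, a2, a3, a4, a5⟩, a6⟩
    · rintro ⟨pos, γ, ⟨a1, a2, a3, a4, a5⟩, a6⟩
      exact ⟨pos, γ, a1, a2, a3, a4, a5, a6⟩
  rw [key] at h1 ⊢
  exact hc m V G hm h1 (fun e he => (key _ _).1 (hcrit e he))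

end Pool.Agent.Results.MP_0dbcb7_co.Polylog
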