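import Pool.Agent.Helper71.QU.SqrtMain

/-!
# 1-planar-critical graphs: the bounds `√Δ log Δ log n` and `n^(1/3) log² n`

The statement is the frozen statement of Q1 (same definition `P m H` of `H is m-planar`), where the constant
`k` is `c * (lam * (Nat.log 2 (lam * r) + 1) * (Nat.log 2 n + 1))` with one absolute constant `c`, where `n` is the
number of vertices, for the graphs such that every thread (a path between two different vertices of degree at least
three whose inner vertices have degree two) has at least `r` edges, and such that either all degrees are at most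
`lam ^ 2 * r`, or `n` is at most `lam ^ 3 * r ^ 2` and `Nat.log 2 n + 1` is at most `lam`. For `r = 1` there is no
condition on the threads.
-/

namespace Pool.Agent.Results.MP_0dbcb7_co.SqrtDegree

open Pool.Agent.Helper83.OP

theorem result :
    ∃ c : ℕ, ∀ (lam r : ℕ) (V : Type) [Fintype V] (G : SimpleGraph V)
      (P : ℕ → SimpleGraph V → Prop),
      P = (fun (m : ℕ) (H : SimpleGraph V) =>
        ∃ (pos : V → ℝ × ℝ) (γ : Sym2 V → ℝ → ℝ × ℝ),
          Function.Injective pos ∧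
          (∀ u v : V, H.Adj u v →
            ((γ s(u, v) 0 = pos u ∧ γ s(u, v) 1 = pos v) ∨
             (γ s(u, v) 0 = pos v ∧ γ s(u, v) 1 = pos u))) ∧
          (∀ e ∈ H.edgeSet, ContinuousOn (γ e) (Set.Icc (0 : ℝ) 1)) ∧
          (∀ e ∈ H.edgeSet, Set.InjOn (γ e) (Set.Icc (0 : ℝ) 1)) ∧
          (∀ e ∈ H.edgeSet, ∀ t : ℝ, t ∈ Set.Ioo (0 : ℝ) 1 →
            ∀ w : V, γ e t ≠ pos w) ∧
          (∀ e ∈ H.edgeSet,
            {q : Sym2 V × (ℝ × ℝ) | q.1 ∈ H.edgeSet ∧ q.1 ≠ e ∧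
              q.2 ∈ γ e '' Set.Ioo (0 : ℝ) 1 ∧
              q.2 ∈ γ q.1 '' Set.Ioo (0 : ℝ) 1}.encard
              ≤ (m : ℕ∞))) →
      1 ≤ lam →
      1 ≤ r →
      ¬ P 1 G →
      (∀ e ∈ G.edgeSet, P 1 (G.deleteEdges {e})) →
      (∀ (u v : V) (p : G.Walk u v), p.IsPath → u ≠ v → 3 ≤ (G.neighborSet u).ncard →
        3 ≤ (G.neighborSet v).ncard →
        (∀ x ∈ p.support, x ≠ u → x ≠ v → (G.neighborSet x).ncard = 2) → r ≤ p.length) →
      ((∀ v, (G.neighborSet v).ncard ≤ lam ^ 2 * r) ∨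
        (Nat.log 2 (Fintype.card V) + 1 ≤ lam ∧ Fintype.card V ≤ lam ^ 3 * r ^ 2)) →
      P (c * (lam * (Nat.log 2 (lam * r) + 1) * (Nat.log 2 (Fintype.card V) + 1))) G := by
  obtain ⟨c, hc⟩ := Pool.Agent.Helper71.QU.main_sqrt
  refine ⟨c, fun lam r V _ G P hP hlam hr h1 hcrit hthr hcase => ?_⟩
  have key : ∀ (m : ℕ) (H : SimpleGraph V), P m H ↔ KPl m H := by
    intro m H
    rw [hP]
    constructor
    · rintro ⟨pos, γ, a1, a2, a3, a4, a5, a6⟩
      exact ⟨pos, γ, ⟨a1, a2, a3, a4, a5⟩, a6⟩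
    · rintro ⟨pos, γ, ⟨a1, a2, a3, a4, a5⟩, a6⟩
      exact ⟨pos, γ, a1, a2, a3, a4, a5, a6⟩
  rw [key] at h1 ⊢
  exact hc lam r V G hlam hr h1 (fun e he => (key _ _).1 (hcrit e he)) hthr hcase

end Pool.Agent.Results.MP_0dbcb7_co.SqrtDegree
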